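import Pool.Agent.Lib.HS.Top
import Pool.Agent.Lib.HS32.MAll
import Pool.Agent.Lib.HS76.Diag

/-! Project rb9: the densities of the dual measures do not concentrate. -/

open scoped Classical Topology ContDiff ComplexOrder Matrix
open Set MeasureTheory Complex Metric Filter

noncomputable section

namespace Pool.Agent.Lib.RB51

open Pool.Agent.Lib.SV (E)
open Pool.Agent.Lib.HS32
open Pool.Agent.Lib.HS (St_AUBIN)

theorem amgm {n : ℕ} (hn : 0 < n) {G B : Mat n} (hG : G.PosDef) (hB : B.PosDef) {y : ℝ}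
    (hy : (B.det / G.det).re = Real.exp y) : n * Real.exp (y / n) ≤ (G⁻¹ * B).trace.re := by
  obtain ⟨lam, h⟩ := HS76.eig hG hB.1
  have hp := h.pos hB
  have hn' : (0 : ℝ) < n := Nat.cast_pos.2 hn
  rw [h.det_eq, mul_div_cancel_left₀ _ hG.det_pos.ne', ofReal_re] at hy
  have h1 : ∑ i, Real.log (lam i) = y := by
    rw [← Real.log_prod fun i _ => (hp i).ne', hy, Real.log_exp]
  have c0 := Real.exp_pos (y / n)
  have h2 : ∑ i, Real.exp (y / n) * (1 + (Real.log (lam i) - y / n)) ≤ ∑ i, lam i :=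
    Finset.sum_le_sum fun i _ => by
      have := mul_le_mul_of_nonneg_left (Real.add_one_le_exp (Real.log (lam i) - y / n)) c0.le
      rw [← Real.exp_add, add_sub_cancel, Real.exp_log (hp i)] at this
      linarith
  rw [← Finset.mul_sum, Finset.sum_add_distrib, Finset.sum_sub_distrib, h1] at h2
  simp only [Finset.sum_const, Finset.card_univ, Fintype.card_fin, nsmul_eq_mul, mul_one] at h2
  rw [mul_div_cancel₀ _ hn'.ne', sub_self, add_zero] at h2
  rw [h.tr_re]
  linarith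

theorem young (n : ℕ) {x s : ℝ} (hx : 0 ≤ x) (hs : 0 ≤ s) :
    x * s ^ n ≤ s ^ n * s / 4 + 4 ^ n * x ^ (n + 1) := by
  rcases le_total x (s / 4) with h | h
  · have := mul_le_mul_of_nonneg_right h (pow_nonneg hs n)
    have : 0 ≤ 4 ^ n * x ^ (n + 1) := by positivity
    linarith
  · have h1 : s ^ n ≤ (4 * x) ^ n := pow_le_pow_left₀ hs (by linarith) n
    have h2 := mul_le_mul_of_nonneg_left h1 hx
    rw [mul_pow] at h2
    have : 0 ≤ s ^ n * s / 4 := by positivity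
    rw [pow_succ]
    linarith

variable {n : ℕ} {M : Mf n} [M.Cpt]

theorem itg {G : M.Fam (Mat n)} (hG : M.Met G) {f : M.X → ℝ} (hf : Continuous f) :
    Integrable f (M.mu G) := (mMU n M G hG).2.2.2.2.1 ℝ f hf

/-- The mean of the trace controls a power of the density. -/
theorem amg (hA : St_AUBIN) (hn : 0 < n) {G : M.Fam (Mat n)} (hG : M.Kae G) {F ρ : M.X → ℝ}
    (hF : M.Sm F) (h1 : ∫ x, Real.exp (F x) ∂M.mu G = (M.mu G).real univ) (hρ : M.Sm ρ)
    (hρ0 : ∀ x, 0 ≤ ρ x) {a : ℝ} (ha : ∀ v, M.Sm v → M.Kae (G + M.hs v) →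
      ∫ x, ρ x * M.tr G (G + M.hs v) x ∂M.mu G ≤ a) :
    n * ∫ x, ρ x * Real.exp (F x / n) ∂M.mu G ≤ a := by
  have hm := hG.toMet
  have hn' : (0 : ℝ) < n := Nat.cast_pos.2 hn
  obtain ⟨-, hfin, -, hV, -⟩ := mMU n M G hm
  have sg : M.Sm fun x => ρ x * Real.exp (F x / n) :=
    hρ.mul (hF.div (Mf.sm_const _) fun _ => hn'.ne').exp
  obtain ⟨x₀, hx₀⟩ := sg.exists_max
  set K := ρ x₀ * Real.exp (F x₀ / n) with hK
  have K0 : 0 ≤ K := mul_nonneg (hρ0 _) (Real.exp_pos _).le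
  obtain ⟨C, hC0, hpsh, -⟩ := mPSH n M G 1 hm
  refine le_of_forall_pos_le_add fun η hη => ?_
  set t := η / (K * C + 1) with ht
  have t0 : 0 < t := by positivity
  obtain ⟨v, sv, kA, hd⟩ := hA n M G F t hn hG hF t0
  obtain ⟨x₁, hx₁⟩ := sv.exists_max
  have sw : M.Sm fun x => v x - v x₁ := sv.sub (Mf.sm_const _)
  have hw := hpsh _ sw (fun e he z hz => by
    have h1 := ((mLAP n M v _ sv (Mf.sm_const (v x₁))).1 (v x₁) e he z hz)
    have h2 := (kA.pos e he z hz).posSemidef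
    simpa [h1.2.2.1, h1.1] using h2) (fun x => sub_nonpos.2 (hx₁ x)) ⟨x₁, sub_self _⟩
  have v0 : 0 ≤ v x₁ := by
    have a1 : ∫ x, Real.exp (t * v x + F x) ∂M.mu G = (M.mu G).real univ := by
      simp only [← hd]
      rw [mCOH n M G G v hm hG.toClo sv]
      simp [hm.dq_self]
    have a2 := integral_mono (μ := M.mu G) (f := fun x => Real.exp (t * v x + F x))
      (g := fun x => Real.exp (t * v x₁) * Real.exp (F x))
      (itg hm ((sv.const_mul t).add hF).exp.continuous) ((itg hm hF.exp.continuous).const_mul _)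
      fun x => by
        simp only [← Real.exp_add, Real.exp_le_exp]
        nlinarith [hx₁ x]
    rw [a1, integral_const_mul, h1] at a2
    have a3 : Real.exp 0 ≤ Real.exp (t * v x₁) := by
      rw [Real.exp_zero]; exact le_of_mul_le_mul_right (by linarith) hV
    exact nonneg_of_mul_nonneg_right (by simpa [mul_comm] using Real.exp_le_exp.1 a3) t0
  have sp : M.Sm (M.tr G (G + M.hs v)) := ((mINV n M G hm).1 _ kA.toTen).2.1
  have i1 := (itg hm sg.continuous).const_mul (n : ℝ)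
  have i2 := (itg hm sw.continuous).const_mul (t * K)
  have b := integral_mono (μ := M.mu G)
    (f := fun x => n * (ρ x * Real.exp (F x / n)) + t * K * (v x - v x₁))
    (g := fun x => ρ x * M.tr G (G + M.hs v) x) (i1.add i2) (itg hm (hρ.mul sp).continuous)
    fun x => by
      have b1 : n * Real.exp ((t * v x + F x) / n) ≤ M.tr G (G + M.hs v) x :=
        amgm hn (hm.ev_pos x) (kA.toMet.ev_pos x) (hd x)
      rw [add_div, Real.exp_add] at b1
      have b2 := Real.add_one_le_exp (t * v x / n)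
      have b3 : 0 ≤ ρ x * Real.exp (F x / n) := mul_nonneg (hρ0 x) (Real.exp_pos _).le
      have b4 := mul_le_mul_of_nonneg_left b1 (hρ0 x)
      have b5 := mul_le_mul_of_nonneg_left (mul_le_mul_of_nonneg_left b2 hn'.le) b3
      rw [mul_add (n : ℝ), mul_div_cancel₀ _ hn'.ne'] at b5
      have b6 := mul_nonneg (mul_nonneg t0.le (sub_nonneg.2 (hx₀ x))) (sub_nonneg.2 (hx₁ x))
      have b7 := mul_nonneg (mul_nonneg t0.le b3) v0
      show n * (ρ x * Real.exp (F x / n)) + t * K * (v x - v x₁) ≤ ρ x * M.tr G (G + M.hs v) x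
      nlinarith
  rw [integral_add i1 i2, integral_const_mul, integral_const_mul] at b
  have c1 := mul_le_mul_of_nonneg_left hw (mul_nonneg t0.le K0)
  have c2 : t * (K * C + 1) = η := by rw [ht]; field_simp
  have := ha v sv kA
  nlinarith

/-- Normalized quasi-plurisubharmonic functions. -/
def P0 (M : Mf n) (H : M.Fam (Mat n)) (C₁ : ℝ) (w : M.X → ℝ) : Prop :=
  M.Sm w ∧ M.Le 0 (C₁ • H + M.hs w) ∧ (∀ x, w x ≤ 0) ∧ ∃ x, w x = 0

theorem p0_of {H T : M.Fam (Mat n)} {C₁ : ℝ} {p : M.X → ℝ} (hp : M.Sm p) (hT : M.Le 0 T)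
    (h : M.Le T (C₁ • H + M.hs p)) : ∃ m : ℝ, P0 M H C₁ fun x => p x - m := by
  obtain ⟨x₀, hx₀⟩ := hp.exists_max
  refine ⟨p x₀, hp.sub (Mf.sm_const _), fun e he z hz => ?_, fun x => sub_nonpos.2 (hx₀ x),
    x₀, sub_self _⟩
  have h1 := ((mLAP n M p _ hp (Mf.sm_const (p x₀))).1 (p x₀) e he z hz)
  have h2 := hT.trans h e he z hz
  simpa [h1.2.2.1, h1.1] using h2

theorem young_int {H G : M.Fam (Mat n)} (hH : M.Met H) (hG : M.Met G) {C K : ℝ} (hC : 0 ≤ C)
    (hd : ∀ x, M.dq H G x ≤ C * (M.mu G).real univ) {w ρ s : M.X → ℝ} (hw : Continuous w)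
    (hw0 : ∀ x, w x ≤ 0) (hK : ∫ x, |w x| ^ (n + 1) ∂M.mu H ≤ K) (hρ : Continuous ρ)
    (hs : Continuous s) (hs0 : ∀ x, 0 ≤ s x) (he : ∀ x, ρ x * (M.mu G).real univ = s x ^ n) :
    ∫ x, -w x * ρ x ∂M.mu G ≤ (∫ x, ρ x * s x ∂M.mu G) / 4 + 4 ^ n * C * K := by
  obtain ⟨-, hfin, -, hV, -⟩ := mMU n M G hG
  set V := (M.mu G).real univ with hVe
  have cw : Continuous fun x => |w x| ^ (n + 1) := hw.abs.pow _
  have i1 := (itg hG (hρ.fun_mul hs)).div_const 4
  have i2 := (itg hG cw).const_mul (4 ^ n * V⁻¹)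
  have a := integral_mono (μ := M.mu G) (f := fun x => -w x * ρ x)
    (g := fun x => ρ x * s x / 4 + 4 ^ n * V⁻¹ * |w x| ^ (n + 1)) (itg hG (hw.neg.mul hρ))
    (i1.add i2) fun x => by
      have h1 := young n (neg_nonneg.2 (hw0 x)) (hs0 x)
      rw [← he x] at h1
      refine le_of_mul_le_mul_right ?_ hV
      show -w x * ρ x * V ≤ (ρ x * s x / 4 + 4 ^ n * V⁻¹ * |w x| ^ (n + 1)) * V
      rw [abs_of_nonpos (hw0 x), add_mul, mul_right_comm _ V⁻¹, inv_mul_cancel_right₀ hV.ne']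
      linarith
  have a2 : ∫ x, |w x| ^ (n + 1) ∂M.mu G ≤ C * V * K := by
    rw [((mMU n M H hH).2.2.2.2.2.2 G hG).2.1]
    have sd := ((mINV n M H hH).1 G hG.toTen).2.2.2.1.continuous
    refine (integral_mono (itg hH (sd.mul cw)) ((itg hH cw).const_mul (C * V)) fun x =>
      mul_le_mul_of_nonneg_right (hd x) (by positivity)).trans ?_
    rw [integral_const_mul]
    exact mul_le_mul_of_nonneg_left hK (by positivity)
  rw [integral_add i1 i2, integral_div, integral_const_mul] at a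
  have a3 := mul_le_mul_of_nonneg_left a2 (show 0 ≤ 4 ^ n * V⁻¹ by positivity)
  have a4 : 4 ^ n * V⁻¹ * (C * V * K) = 4 ^ n * C * K := by field_simp
  linarith

theorem grad_log {G : M.Fam (Mat n)} (hG : M.Kae G) {ρ : M.X → ℝ} (hρ : M.Sm ρ)
    (h0 : ∀ x, 0 < ρ x) (hl : ∀ x, M.lap G ρ x ≤ ρ x) :
    ∫ x, M.gr G (fun y => Real.log (ρ y)) (fun y => Real.log (ρ y)) x ∂M.mu G ≤
      (M.mu G).real univ := by
  have hm := hG.toMet
  obtain ⟨-, hfin, -⟩ := mMU n M G hm
  have sl : M.Sm fun y => Real.log (ρ y) := hρ.log fun x => (h0 x).ne'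
  have cl : ∀ x, ContDiffAt ℝ ∞ Real.log (ρ x) := fun x => Real.contDiffAt_log.2 (h0 x).ne'
  obtain ⟨s1, s2, -⟩ := (mLAP n M _ _ sl sl).2.2 G hm
  have i1 := itg hm s1.continuous
  have a := integral_mono (μ := M.mu G)
    (g := fun x => 1 - M.lap G (fun y => Real.log (ρ y)) x) (itg hm s2.continuous)
    ((integrable_const _).sub i1) fun x => by
      obtain ⟨a1, a2⟩ := ((mLAP n M ρ ρ hρ hρ).2.2 G hm).2.2.2.1 Real.log cl x
      have a3 := (((mLAP n M ρ _ hρ sl).2.2 G hm).2.2.2.1 Real.log cl x).2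
      have a4 := (((mLAP n M ρ _ hρ sl).2.2 G hm).2.2.1 x 0).2.2.2.2.2.1
      have d : deriv (deriv Real.log) (ρ x) = -(ρ x ^ 2)⁻¹ := by
        rw [Real.deriv_log', deriv_inv]
      rw [d] at a1
      rw [Real.deriv_log] at a1 a2 a3
      show _ ≤ 1 - M.lap G (fun y => Real.log (ρ y)) x
      rw [a3, a4, a2, a1]
      have a5 := mul_le_mul_of_nonneg_left (hl x) (inv_pos.2 (h0 x)).le
      rw [inv_mul_cancel₀ (h0 x).ne'] at a5
      rw [sq, mul_inv]
      linarith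
  rw [integral_sub (integrable_const _) i1, ((mGRN n M).2 G _ _ hG sl sl).1] at a
  simpa using a

theorem vol_lower {H G : M.Fam (Mat n)} (hH : M.Met H) (hG : M.Met G) {C N : ℝ} (hC : 0 < C)
    (hN : 0 < N) (hd : ∀ x, M.dq H G x ≤ C * (M.mu G).real univ) {ρ s : M.X → ℝ}
    (hρ : Continuous ρ) (hρ0 : ∀ x, 0 ≤ ρ x) (h1 : ∫ x, ρ x ∂M.mu G = 1) (hs : Continuous s)
    (hs0 : ∀ x, 0 ≤ s x) (he : ∀ x, ρ x * (M.mu G).real univ = s x ^ n)
    (h2 : ∫ x, ρ x * s x ∂M.mu G ≤ N) :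
    (4 * (4 * N) ^ n * C)⁻¹ ≤ (M.mu H).real {x | 1 / 2 ≤ ρ x * (M.mu G).real univ} := by
  obtain ⟨-, hfin, -, hV, -⟩ := mMU n M G hG
  obtain ⟨-, hfin', -⟩ := mMU n M H hH
  set V := (M.mu G).real univ with hVe
  set S := {x | 1 / 2 ≤ ρ x * V} with hS
  have mS : MeasurableSet S := (isClosed_le continuous_const (hρ.mul continuous_const)).measurableSet
  have j : ∀ c : ℝ, Integrable (S.indicator fun _ => c) (M.mu G) := fun c =>
    (integrable_const c).indicator mS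
  have i1 : Integrable (fun x => (2 * V)⁻¹ + S.indicator (fun _ => (4 * N) ^ n * V⁻¹) x)
    (M.mu G) := (integrable_const _).add (j _)
  have i2 := (itg hG (hρ.fun_mul hs)).mul_const (4 * N)⁻¹
  have a := integral_mono (μ := M.mu G) (f := ρ) (g := fun x => (2 * V)⁻¹ +
      S.indicator (fun _ => (4 * N) ^ n * V⁻¹) x + ρ x * s x * (4 * N)⁻¹) (itg hG hρ)
    (i1.add i2) fun x => by
      have p1 : 0 ≤ ρ x * s x * (4 * N)⁻¹ := by have := hρ0 x; have := hs0 x; positivity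
      have p2 : 0 ≤ (2 * V)⁻¹ := by positivity
      have p3 : 0 ≤ (4 * N) ^ n * V⁻¹ := by positivity
      by_cases hx : x ∈ S
      · simp only [indicator_of_mem hx]
        rcases le_total (s x) (4 * N) with h | h
        · have q := pow_le_pow_left₀ (hs0 x) h n
          rw [← he x, ← le_mul_inv_iff₀ hV] at q
          linarith
        · have q := mul_le_mul_of_nonneg_left h (hρ0 x)
          rw [← le_mul_inv_iff₀ (by positivity)] at q
          linarith
      · simp only [indicator_of_notMem hx]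
        have q : ρ x * V < 1 / 2 := not_le.1 hx
        have : ρ x ≤ (2 * V)⁻¹ := by
          rw [← one_mul (2 * V)⁻¹, le_mul_inv_iff₀ (by positivity)]; linarith
        linarith
  rw [h1, integral_add i1 i2, integral_add (integrable_const _) (j _), integral_const,
    integral_mul_const, integral_indicator_const _ mS, smul_eq_mul, smul_eq_mul, ← hVe] at a
  have a2 : (M.mu G).real S ≤ (M.mu H).real S * (C * V) := by
    have b1 := ((mMU n M H hH).2.2.2.2.2.2 G hG).2.1 (S.indicator fun _ => 1)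
    rw [integral_indicator_const _ mS, smul_eq_mul, mul_one] at b1
    rw [b1, ← smul_eq_mul, ← integral_indicator_const _ mS]
    refine integral_mono_of_nonneg (Eventually.of_forall fun x => mul_nonneg
      (((mINV n M H hH).2.2.2.2.2.2.2 G hG).1 x).le (indicator_nonneg (fun _ _ => zero_le_one) x))
      ((integrable_const _).indicator mS) (Eventually.of_forall fun x => ?_)
    by_cases hx : x ∈ S
    · simpa only [indicator_of_mem hx, mul_one] using hd x
    · simp only [indicator_of_notMem hx, mul_zero, le_refl]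
  have a3 := mul_le_mul_of_nonneg_right a2 (show 0 ≤ (4 * N) ^ n * V⁻¹ by positivity)
  have a4 : (∫ x, ρ x * s x ∂M.mu G) * (4 * N)⁻¹ ≤ 1 / 4 := by
    rw [mul_inv_le_iff₀ (by positivity)]; linarith
  have a5 : V * (2 * V)⁻¹ = 1 / 2 := by field_simp
  have a6 : (M.mu H).real S * (C * V) * ((4 * N) ^ n * V⁻¹) =
      (M.mu H).real S * (4 * (4 * N) ^ n * C) / 4 := by field_simp
  rw [← one_mul (4 * (4 * N) ^ n * C)⁻¹, mul_inv_le_iff₀ (by positivity)]
  linarith

/-- One step of the backward induction. -/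
theorem nonc (hA : St_AUBIN) (hn : 0 < n) {H : M.Fam (Mat n)} (hH : M.Met H) {C₁ K C : ℝ}
    (hC : 0 < C) (hK : ∀ w, P0 M H C₁ w → ∫ x, |w x| ^ (n + 1) ∂M.mu H ≤ K) :
    ∃ A c : ℝ, 0 < c ∧ ∀ G p, M.Kae G → M.Sm p → M.Le G (C₁ • H + M.hs p) →
      (∀ x, M.dq H G x ≤ C * (M.mu G).real univ) →
      (∀ w, P0 M H C₁ w → ∫ x, -w x * ((M.mu G).real univ)⁻¹ ∂M.mu G ≤ A) ∧
      ∀ ρ b, M.Sm ρ → M.Sm b → (∀ x, 0 < ρ x) → (∀ x, 0 ≤ b x) →
        (∀ x, ρ x - M.lap G ρ x = b x) → ∫ x, ρ x ∂M.mu G = 1 →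
        (∀ w, P0 M H C₁ w → ∫ x, -w x * b x ∂M.mu G ≤ A) →
        (∀ w, P0 M H C₁ w → ∫ x, -w x * ρ x ∂M.mu G ≤ A) ∧
        c ≤ (M.mu H).real {x | 1 / 2 ≤ ρ x * (M.mu G).real univ} ∧
        ∫ x, M.gr G (fun y => Real.log (ρ y)) (fun y => Real.log (ρ y)) x ∂M.mu G ≤
          (M.mu G).real univ := by
  set D := 4 ^ n * C * max K 0 with hD
  have D0 : 0 ≤ D := by positivity
  have hn' : (1 : ℝ) ≤ n := Nat.one_le_cast.2 hn
  refine ⟨1 + 2 * D, (4 * (4 * (4 + 4 * D)) ^ n * C)⁻¹, by positivity,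
    fun G p hG hp hle hd => ?_⟩
  have hm := hG.toMet
  obtain ⟨-, hfin, -, hV, -⟩ := mMU n M G hm
  have yo := fun (w ρ s : M.X → ℝ) (hw : P0 M H C₁ w) => young_int (ρ := ρ) (s := s) hH hm hC.le hd
    hw.1.continuous hw.2.2.1 ((hK w hw).trans (le_max_left K 0))
  refine ⟨fun w hw => ?_, fun ρ b hρ hb hρ0 hb0 hl h1 hbA => ?_⟩
  · have := yo w (fun _ => ((M.mu G).real univ)⁻¹) (fun _ => 1) hw continuous_const
      continuous_const (fun _ => zero_le_one) fun _ => by rw [inv_mul_cancel₀ hV.ne', one_pow]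
    rw [integral_const, smul_eq_mul, mul_one, mul_inv_cancel₀ hV.ne'] at this
    linarith
  set V := (M.mu G).real univ with hVe
  have r0 : ∀ x, 0 < ρ x * V := fun x => mul_pos (hρ0 x) hV
  have sF : M.Sm fun x => Real.log (ρ x * V) := (hρ.mul (Mf.sm_const V)).log fun x => (r0 x).ne'
  have cs : Continuous fun x => Real.exp (Real.log (ρ x * V) / n) :=
    (sF.continuous.div_const _).rexp
  have es : ∀ x, ρ x * V = Real.exp (Real.log (ρ x * V) / n) ^ n := fun x => by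
    rw [← Real.exp_nat_mul, mul_div_cancel₀ _ (by linarith), Real.exp_log (r0 x)]
  have y := fun w hw => yo w ρ _ hw hρ.continuous cs (fun _ => (Real.exp_pos _).le) es
  set N := ∫ x, ρ x * Real.exp (Real.log (ρ x * V) / n) ∂M.mu G with hN
  have hΔ : ∀ x, M.lap G ρ x = ρ x - b x := fun x => by have := hl x; linarith
  have k : n * N ≤ n + (1 + 2 * D) + (N / 4 + D) := by
    refine amg hA hn hG sF ?_ hρ (fun x => (hρ0 x).le) fun v sv kA => ?_
    · simp only [fun x => Real.exp_log (r0 x)]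
      rw [integral_mul_const, h1, one_mul]
    obtain ⟨m, hφ⟩ := p0_of hp hm.nonneg hle
    obtain ⟨m', hw⟩ := p0_of (H := H) (C₁ := C₁) (hp.add sv) kA.toMet.nonneg fun e he z hz => by
      have h2 := ((mLAP n M p v hp sv).1 0 e he z hz).2.1
      have h3 := hle e he z hz
      simp only [Pi.add_apply, h2] at h3 ⊢
      rwa [← add_assoc, add_sub_add_right_eq_sub]
    have cρ := hρ.continuous
    have cb := hb.continuous
    have cφ := hφ.1.continuous
    have cw := hw.1.continuous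
    have g1 := ((mGRN n M).2 G v ρ hG sv hρ).2.2
    have g2 := ((mGRN n M).2 G ρ ρ hG hρ hρ).1
    have cl := ((mLAP n M v v sv sv).2.2 G hm).1.continuous
    have cl' := ((mLAP n M ρ ρ hρ hρ).2.2 G hm).1.continuous
    have g3 : ∫ x, ρ x * M.tr G (G + M.hs v) x ∂M.mu G = n + ∫ x, v x * M.lap G ρ x ∂M.mu G := by
      simp only [Mf.tr_add, hm.tr_self, mul_add]
      have := integral_add (itg hm (cρ.fun_mul (continuous_const (y := (n : ℝ)))))
        (itg hm (cρ.fun_mul cl))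
      rw [integral_mul_const, h1, one_mul, g1] at this
      exact this
    have i1 := itg hm (cw.fun_neg.fun_mul cb)
    have i2 := itg hm (cφ.fun_neg.fun_mul cρ)
    have i3 := (itg hm cl').const_mul (m' - m)
    have g4 := integral_mono (μ := M.mu G) (f := fun x => v x * M.lap G ρ x)
      (g := fun x => -(p x + v x - m') * b x + -(p x - m) * ρ x + (m' - m) * M.lap G ρ x)
      (itg hm (sv.continuous.mul cl')) ((i1.add i2).add i3) fun x => by
        have q1 := mul_nonneg (neg_nonneg.2 (hw.2.2.1 x)) (hρ0 x).le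
        have q2 := mul_nonneg (neg_nonneg.2 (hφ.2.2.1 x)) (hb0 x)
        simp only [hΔ]
        nlinarith
    rw [integral_add (i1.fun_add i2) i3, integral_add i1 i2, integral_const_mul, g2] at g4
    have := hbA _ hw
    have := y _ hφ
    rw [g3]
    linarith
  have hN4 : N ≤ 4 + 4 * D := by
    by_contra h
    push Not at h
    nlinarith
  refine ⟨fun w hw => by have := y w hw; linarith, vol_lower hH hm hC (by positivity) hd
    hρ.continuous (fun x => (hρ0 x).le) h1 cs (fun _ => (Real.exp_pos _).le) es hN4,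
    grad_log hG hρ hρ0 fun x => by have := hb0 x; rw [hΔ]; linarith⟩

/-- The backward induction. -/
theorem nonc_seq (hA : St_AUBIN) (hn : 0 < n) {H : M.Fam (Mat n)} (hH : M.Met H) {C₁ K C : ℝ}
    (hC : 0 < C) (hK : ∀ w, P0 M H C₁ w → ∫ x, |w x| ^ (n + 1) ∂M.mu H ≤ K) :
    ∃ c : ℝ, 0 < c ∧ ∀ (g : ℕ → M.Fam (Mat n)) (p ρ b : ℕ → M.X → ℝ) (J : ℕ),
      (∀ j, M.Kae (g j) ∧ M.Sm (p j) ∧ M.Le (g j) (C₁ • H + M.hs (p j)) ∧
        ∀ x, M.dq H (g j) x ≤ C * (M.mu (g j)).real univ) →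
      (∀ x, b J x = ((M.mu (g J)).real univ)⁻¹) →
      (∀ j < J, M.Sm (ρ j) ∧ M.Sm (b (j + 1)) ∧ (∀ x, 0 < ρ j x) ∧ (∀ x, 0 ≤ b (j + 1) x) ∧
        (∀ x, ρ j x - M.lap (g (j + 1)) (ρ j) x = b (j + 1) x) ∧
        ∫ x, ρ j x ∂M.mu (g (j + 1)) = 1 ∧
        ∀ f : M.X → ℝ, ∫ x, f x * b j x ∂M.mu (g j) = ∫ x, f x * ρ j x ∂M.mu (g (j + 1))) →
      ∀ j < J, c ≤ (M.mu H).real {x | 1 / 2 ≤ ρ j x * (M.mu (g (j + 1))).real univ} ∧
        ∫ x, M.gr (g (j + 1)) (fun y => Real.log (ρ j y)) (fun y => Real.log (ρ j y)) x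
          ∂M.mu (g (j + 1)) ≤ (M.mu (g (j + 1))).real univ := by
  obtain ⟨A, c, hc, h⟩ := nonc hA hn hH hC hK
  refine ⟨c, hc, fun g p ρ b J hg hb hr => ?_⟩
  have h' := fun j => h (g j) (p j) (hg j).1 (hg j).2.1 (hg j).2.2.1 (hg j).2.2.2
  have st := fun j (hj : j < J) => (h' (j + 1)).2 (ρ j) (b (j + 1)) (hr j hj).1 (hr j hj).2.1
    (hr j hj).2.2.1 (hr j hj).2.2.2.1 (hr j hj).2.2.2.2.1 (hr j hj).2.2.2.2.2.1
  have key : ∀ j ≤ J, ∀ w, P0 M H C₁ w → ∫ x, -w x * b j x ∂M.mu (g j) ≤ A := fun j hj => by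
    induction hj using Nat.decreasingInduction with
    | self => simpa only [hb] using (h' J).1
    | of_succ k hk ih =>
      intro w hw
      rw [(hr k hk).2.2.2.2.2.2 fun x => -w x]
      exact (st k hk ih).1 w hw
  exact fun j hj => (st j hj (key _ hj)).2

end Pool.Agent.Lib.RB51
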